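import Pool.Agent.Q121.EM.Dpr

/-!
Project FD (helper86), job DGT: forests, all log-concave factors.
-/

set_option autoImplicit false

namespace Pool.Agent.Q121.EM

open MeasureTheory Set Filter Topology
open scoped ENNReal InnerProductSpace ContDiff
open Pool.Agent.H888R2.KT (LC)
open Pool.Agent.H212R2.KLS (mu Bdd)
open Pool.Agent.Q86.EM

section

variable {ι : Type} [Fintype ι] [PartialOrder ι]

open Classical in
/-- cut off the factors -/
noncomputable def FN (F : ι → Eu ι → ℝ) (N : ℕ) (v : ι) (x : Eu ι) : ℝ :=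
  if |x v| ≤ N then F v x else 0

theorem fac_N {F : ι → Eu ι → ℝ} (hF : Fac F) (N : ℕ) : Fac (FN F N) where
  nonneg v x := by
    unfold FN
    split_ifs
    · exact hF.nonneg v x
    · exact le_rfl
  meas v := by
    unfold FN
    have h1 : MeasurableSet {x : Eu ι | |x v| ≤ N} := by
      refine measurableSet_le ?_ measurable_const
      have : Continuous fun x : Eu ι => |x v| := by fun_prop
      exact this.measurable
    exact Measurable.ite h1 (hF.meas v) measurable_const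
  logc v x y t h0 h1 := by
    have ht1 : 0 < 1 - t := by linarith
    unfold FN
    by_cases hx : |x v| ≤ N
    · by_cases hy : |y v| ≤ N
      · have hz : |((1 - t) • x + t • y) v| ≤ N := by
          have e : ((1 - t) • x + t • y) v = (1 - t) * x v + t * y v := by simp
          rw [e]
          calc |(1 - t) * x v + t * y v| ≤ |(1 - t) * x v| + |t * y v| := abs_add_le _ _
            _ = (1 - t) * |x v| + t * |y v| := by
                rw [abs_mul, abs_mul, abs_of_pos h0, abs_of_pos ht1]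
            _ ≤ (1 - t) * N + t * N := by
                have a1 := mul_le_mul_of_nonneg_left hx ht1.le
                have a2 := mul_le_mul_of_nonneg_left hy h0.le
                linarith
            _ = N := by ring
        rw [if_pos hx, if_pos hy, if_pos hz]
        exact hF.logc v x y t h0 h1
      · rw [if_neg hy, Real.zero_rpow h0.ne', mul_zero]
        split_ifs
        · exact hF.nonneg v _
        · exact le_rfl
    · rw [if_neg hx, Real.zero_rpow ht1.ne', zero_mul]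
      split_ifs
      · exact hF.nonneg v _
      · exact le_rfl
  dep v x y h := by
    unfold FN
    rw [h v le_rfl, hF.dep v x y h]

open Classical in
theorem prod_N (F : ι → Eu ι → ℝ) (N : ℕ) (x : Eu ι) :
    ∏ v, FN F N v x = if (∀ v, |x v| ≤ N) then ∏ v, F v x else 0 := by
  unfold FN
  rw [Finset.prod_ite_zero]
  simp only [Finset.mem_univ, true_imp_iff]

theorem fac_prod_nonneg {F : ι → Eu ι → ℝ} (hF : Fac F) (x : Eu ι) : 0 ≤ ∏ v, F v x :=
  Finset.prod_nonneg fun v _ => hF.nonneg v x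

theorem fac_prod_meas {F : ι → Eu ι → ℝ} (hF : Fac F) : Measurable fun x => ∏ v, F v x :=
  Finset.measurable_fun_prod _ fun v _ => hF.meas v

theorem fac_prod_logc {F : ι → Eu ι → ℝ} (hF : Fac F) (x y : Eu ι) (t : ℝ) (h0 : 0 < t)
    (h1 : t < 1) : (∏ v, F v x) ^ (1 - t) * (∏ v, F v y) ^ t ≤ ∏ v, F v ((1 - t) • x + t • y) := by
  rw [← Real.finsetProd_rpow _ _ (fun v _ => hF.nonneg v x),
    ← Real.finsetProd_rpow _ _ (fun v _ => hF.nonneg v y), ← Finset.prod_mul_distrib]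
  refine Finset.prod_le_prod (fun v _ => ?_) fun v _ => hF.logc v x y t h0 h1
  exact mul_nonneg (Real.rpow_nonneg (hF.nonneg v x) _) (Real.rpow_nonneg (hF.nonneg v y) _)

theorem rho_N_le {F : ι → Eu ι → ℝ} (hF : Fac F) (N : ℕ) (x : Eu ι) :
    ∏ v, FN F N v x ≤ ∏ v, F v x := by
  rw [prod_N]
  split_ifs
  · exact le_rfl
  · exact fac_prod_nonneg hF x

theorem rho_N_mono {F : ι → Eu ι → ℝ} (hF : Fac F) (x : Eu ι) :
    Monotone fun N : ℕ => ∏ v, FN F N v x := by
  intro N M h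
  simp only
  rw [prod_N, prod_N]
  by_cases hN : ∀ v, |x v| ≤ N
  · have hNM : (N : ℝ) ≤ (M : ℝ) := Nat.cast_le.2 h
    have hM : ∀ v, |x v| ≤ (M : ℝ) := fun v => (hN v).trans hNM
    rw [if_pos hN, if_pos hM]
  · rw [if_neg hN]
    split_ifs
    · exact fac_prod_nonneg hF x
    · exact le_rfl

theorem rho_N_ev (F : ι → Eu ι → ℝ) (x : Eu ι) :
    ∀ᶠ N : ℕ in atTop, ∏ v, FN F N v x = ∏ v, F v x := by
  have h1 : ∀ᶠ N : ℕ in atTop, ‖x‖ ≤ N := by
    have := tendsto_natCast_atTop_atTop (R := ℝ)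
    exact this.eventually_ge_atTop ‖x‖
  filter_upwards [h1] with N hN
  rw [prod_N, if_pos]
  intro v
  refine le_trans ?_ hN
  have := PiLp.norm_apply_le x v
  rwa [Real.norm_eq_abs] at this

theorem mass_lim {F : ι → Eu ι → ℝ} (hF : Fac F) :
    Tendsto (fun N : ℕ => ∫⁻ x, ENNReal.ofReal (∏ v, FN F N v x)) atTop
      (𝓝 (∫⁻ x, ENNReal.ofReal (∏ v, F v x))) := by
  refine lintegral_tendsto_of_tendsto_of_monotone ?_ ?_ ?_
  · exact fun N => (fac_prod_meas (fac_N hF N)).ennreal_ofReal.aemeasurable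
  · exact Eventually.of_forall fun x N M h => ENNReal.ofReal_le_ofReal (rho_N_mono hF x h)
  · refine Eventually.of_forall fun x => ?_
    refine tendsto_const_nhds.congr' ?_
    filter_upwards [rho_N_ev F x] with N hN
    rw [hN]

theorem LC_N {F : ι → Eu ι → ℝ} (hF : Fac F) (hfin : ∫⁻ x, ENNReal.ofReal (∏ v, F v x) ≠ ⊤) (N : ℕ)
    (hne : ∫⁻ x, ENNReal.ofReal (∏ v, FN F N v x) ≠ 0) : LC fun x => ∏ v, FN F N v x where
  nonneg x := fac_prod_nonneg (fac_N hF N) x
  meas := fac_prod_meas (fac_N hF N)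
  logc x y t h0 h1 := fac_prod_logc (fac_N hF N) x y t h0 h1
  bdd := by
    refine ⟨Real.sqrt (Fintype.card ι * (N : ℝ) ^ 2), fun x hx => ?_⟩
    simp only
    rw [prod_N, if_neg]
    intro hc
    have h1 : ‖x‖ ^ 2 ≤ Fintype.card ι * (N : ℝ) ^ 2 := by
      rw [EuclideanSpace.real_norm_sq_eq]
      calc ∑ i, x i ^ 2 ≤ ∑ _i : ι, (N : ℝ) ^ 2 := by
            refine Finset.sum_le_sum fun i _ => ?_
            rw [← sq_abs]
            exact pow_le_pow_left₀ (abs_nonneg _) (hc i) 2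
        _ = _ := by simp
    have h2 := Real.le_sqrt_of_sq_le h1
    linarith
  fin := by
    rw [mu, withDensity_apply _ MeasurableSet.univ, Measure.restrict_univ]
    exact ne_top_of_le_ne_top hfin (lintegral_mono fun x => ENNReal.ofReal_le_ofReal (rho_N_le hF N x))
  ne := by
    intro h0
    rw [← Measure.measure_univ_eq_zero, mu, withDensity_apply _ MeasurableSet.univ,
      Measure.restrict_univ] at h0
    exact hne h0

end

/-- the variance is at most the second moment about any point -/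
theorem var_le {κ : Type} [Fintype κ] {ρ : Eu κ → ℝ} (h : LC ρ) {g : Eu κ → ℝ} (hg : Continuous g)
    (a : ℝ) : (∫ x, ρ x) * (∫ x, g x ^ 2 * ρ x) - (∫ x, g x * ρ x) ^ 2 ≤
      (∫ x, ρ x) * ∫ x, (g x - a) ^ 2 * ρ x := by
  have i0 := lc_int h
  have i1 : Integrable fun x => g x * ρ x := by
    refine (lc_cont h hg).congr (Eventually.of_forall fun x => ?_)
    simp only [smul_eq_mul]; ring
  have i2 : Integrable fun x => g x ^ 2 * ρ x := by
    have c2 : Continuous fun x => g x ^ 2 := hg.pow 2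
    refine (lc_cont h c2).congr (Eventually.of_forall fun x => ?_)
    simp only [smul_eq_mul]; ring
  have e1 : ∫ x, (g x - a) ^ 2 * ρ x =
      (∫ x, g x ^ 2 * ρ x) - 2 * a * (∫ x, g x * ρ x) + a ^ 2 * ∫ x, ρ x := by
    have e2 : (fun x => (g x - a) ^ 2 * ρ x) = fun x =>
        1 * (g x ^ 2 * ρ x) - (2 * a) * (g x * ρ x) + a ^ 2 * ρ x := by
      funext x; ring
    rw [e2, int_quad i2 i1 i0, one_mul]
  rw [e1]
  nlinarith [sq_nonneg ((∫ x, g x * ρ x) - a * ∫ x, ρ x)]

/-- and equal to it for the mean -/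
theorem var_eq {κ : Type} [Fintype κ] {ρ : Eu κ → ℝ} (h : LC ρ) {g : Eu κ → ℝ} (hg : Continuous g) :
    (∫ x, ρ x) * ∫ x, (g x - (∫ x, g x * ρ x) / ∫ x, ρ x) ^ 2 * ρ x =
      (∫ x, ρ x) * (∫ x, g x ^ 2 * ρ x) - (∫ x, g x * ρ x) ^ 2 := by
  have hm := lc_pos h
  have i0 := lc_int h
  have i1 : Integrable fun x => g x * ρ x := by
    refine (lc_cont h hg).congr (Eventually.of_forall fun x => ?_)
    simp only [smul_eq_mul]; ring
  have i2 : Integrable fun x => g x ^ 2 * ρ x := by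
    have c2 : Continuous fun x => g x ^ 2 := hg.pow 2
    refine (lc_cont h c2).congr (Eventually.of_forall fun x => ?_)
    simp only [smul_eq_mul]; ring
  set m := ∫ x, ρ x
  set b := ∫ x, g x * ρ x
  set a := b / m with ha
  have e1 : ∫ x, (g x - a) ^ 2 * ρ x = (∫ x, g x ^ 2 * ρ x) - 2 * a * b + a ^ 2 * m := by
    have e2 : (fun x => (g x - a) ^ 2 * ρ x) = fun x =>
        1 * (g x ^ 2 * ρ x) - (2 * a) * (g x * ρ x) + a ^ 2 * ρ x := by
      funext x; ring
    rw [e2, int_quad i2 i1 i0, one_mul]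
  rw [e1]
  have e3 : a * m = b := by rw [ha]; field_simp
  have e4 : m * (a ^ 2 * m) = b ^ 2 := by rw [← e3]; ring
  have e5 : m * (2 * a * b) = 2 * b ^ 2 := by rw [← e3]; ring
  nlinarith

theorem dgt (h : S_DTD) : S_DGT := by
  obtain ⟨C, hC1, hC⟩ := h
  refine ⟨C, hC1, ?_⟩
  intro ι _ _ d hfrs F hF μ hμ hprob s hs hvar f hf
  have hfc := hf.continuous
  have hfd : Continuous (fderiv ℝ f) := hf.continuous_fderiv one_ne_zero
  have hρm : Measurable fun x => ∏ v, F v x := fac_prod_meas hF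
  have hρ0 : ∀ x, 0 ≤ ∏ v, F v x := fac_prod_nonneg hF
  have hmass : ∫⁻ x, ENNReal.ofReal (∏ v, F v x) = 1 := by
    have h1 := hprob.measure_univ
    rw [hμ, withDensity_apply _ MeasurableSet.univ, Measure.restrict_univ] at h1
    exact h1
  have hint : ∀ g : Eu ι → ℝ≥0∞, Measurable g →
      ∫⁻ x, g x ∂μ = ∫⁻ x, ENNReal.ofReal (∏ v, F v x) * g x := by
    intro g hg
    rw [hμ, lintegral_withDensity_eq_lintegral_mul _ hρm.ennreal_ofReal hg]
    rfl
  -- the bound
  set T : ℝ≥0∞ := ENNReal.ofReal (C ^ d * s) * ∫⁻ x, ENNReal.ofReal (‖fderiv ℝ f x‖ ^ 2) ∂μ with hT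
  rcases eq_or_ne T ⊤ with hTt | hTt
  · rw [hTt]; exact le_top
  set D := T.toReal with hD
  have hD0 : 0 ≤ D := ENNReal.toReal_nonneg
  have hDT : ENNReal.ofReal D = T := ENNReal.ofReal_toReal hTt
  have hCs : 0 ≤ C ^ d * s := mul_nonneg (pow_nonneg (by linarith) _) hs
  set ρN : ℕ → Eu ι → ℝ := fun N x => ∏ v, FN F N v x with hρN
  have hlim := mass_lim hF
  rw [hmass] at hlim
  have hev : ∀ᶠ N : ℕ in atTop, LC (ρN N) := by
    have h1 : ∀ᶠ N : ℕ in atTop, (0 : ℝ≥0∞) < ∫⁻ x, ENNReal.ofReal (∏ v, FN F N v x) :=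
      hlim.eventually (lt_mem_nhds zero_lt_one)
    filter_upwards [h1] with N hN
    exact LC_N hF (by rw [hmass]; exact ENNReal.one_ne_top) N hN.ne'
  -- masses
  have hmN : ∀ N, LC (ρN N) → ENNReal.ofReal (∫ x, ρN N x) = ∫⁻ x, ENNReal.ofReal (ρN N x) :=
    fun N hN => ofReal_integral_eq_lintegral_ofReal (lc_int hN) (Eventually.of_forall hN.nonneg)
  have hmlim : Tendsto (fun N => ∫ x, ρN N x) atTop (𝓝 1) := by
    have h1 : Tendsto (fun N : ℕ => (∫⁻ x, ENNReal.ofReal (ρN N x)).toReal) atTop (𝓝 (1 : ℝ≥0∞).toReal) :=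
      (ENNReal.tendsto_toReal ENNReal.one_ne_top).comp hlim
    rw [ENNReal.toReal_one] at h1
    refine h1.congr' ?_
    filter_upwards [hev] with N hN
    rw [← hmN N hN, ENNReal.toReal_ofReal (lc_pos hN).le]
  -- comparison of integrals
  have hcmp : ∀ N, LC (ρN N) → ∀ g : Eu ι → ℝ, Continuous g → (∀ x, 0 ≤ g x) →
      ENNReal.ofReal (∫ x, g x * ρN N x) ≤ ∫⁻ x, ENNReal.ofReal (g x) ∂μ := by
    intro N hN g hg hg0
    have i1 : Integrable fun x => g x * ρN N x := by
      refine (lc_cont hN hg).congr (Eventually.of_forall fun x => ?_)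
      simp only [smul_eq_mul]; ring
    rw [ofReal_integral_eq_lintegral_ofReal i1 (Eventually.of_forall fun x =>
      mul_nonneg (hg0 x) (hN.nonneg x)), hint _ hg.measurable.ennreal_ofReal]
    refine lintegral_mono fun x => ?_
    rw [mul_comm (g x), ENNReal.ofReal_mul (hN.nonneg x)]
    exact mul_le_mul_left (ENNReal.ofReal_le_ofReal (rho_N_le hF N x)) _
  -- the covariance
  have hcv : ∀ N, LC (ρN N) → CVd (ρN N) (s / ∫ x, ρN N x) := by
    intro N hN θ
    have hm := lc_pos hN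
    have c1 : Continuous fun x : Eu ι => ⟪θ, x⟫_ℝ := by fun_prop
    set a := ∫ x, ⟪θ, x⟫_ℝ ∂μ with ha
    refine (var_le hN c1 a).trans ?_
    have h1 := hcmp N hN (fun x => (⟪θ, x⟫_ℝ - a) ^ 2) (by fun_prop) (fun x => sq_nonneg _)
    have h2 : ∫⁻ x, ENNReal.ofReal ((⟪θ, x⟫_ℝ - a) ^ 2) ∂μ ≤ ENNReal.ofReal (s * ‖θ‖ ^ 2) := by
      refine le_trans (le_of_eq ?_) (hvar θ)
      unfold ProbabilityTheory.evariance
      refine lintegral_congr fun x => ?_
      rw [← ofReal_norm, ← ENNReal.ofReal_pow (norm_nonneg _), Real.norm_eq_abs, sq_abs]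
    have h3 := (ENNReal.ofReal_le_ofReal_iff (by positivity)).1 (h1.trans h2)
    have h4 : s / (∫ x, ρN N x) * ‖θ‖ ^ 2 * (∫ x, ρN N x) ^ 2 =
        (∫ x, ρN N x) * (s * ‖θ‖ ^ 2) := by field_simp
    rw [h4]
    exact mul_le_mul_of_nonneg_left h3 hm.le
  -- the inequality for the cut off densities
  set a : ℕ → ℝ := fun N => (∫ x, f x * ρN N x) / ∫ x, ρN N x with ha
  have hkey : ∀ N, LC (ρN N) → (∫ x, ρN N x) * ∫ x, (f x - a N) ^ 2 * ρN N x ≤ D := by
    intro N hN
    have hm := lc_pos hN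
    rw [ha]
    simp only
    rw [var_eq hN hfc]
    have h1 := hC ι d hfrs (FN F N) (fac_N hF N) hN _ (hcv N hN) f hf
    refine h1.trans ?_
    have h2 : C ^ d * (s / ∫ x, ρN N x) * (∫ x, ρN N x) *
        (∫ x, ‖fderiv ℝ f x‖ ^ 2 * ρN N x) = C ^ d * s * ∫ x, ‖fderiv ℝ f x‖ ^ 2 * ρN N x := by
      field_simp
    refine le_trans (le_of_eq h2) ?_
    rw [← ENNReal.ofReal_le_ofReal_iff hD0, ENNReal.ofReal_mul hCs, hDT, hT]
    exact mul_le_mul_right (hcmp N hN _ (hfd.norm.pow 2) fun x => sq_nonneg _) _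
  -- the means are bounded
  obtain ⟨N₀, hN₀⟩ := (eventually_atTop.1 hev)
  have hmono : ∀ N ≥ N₀, ∫ x, ρN N₀ x ≤ ∫ x, ρN N x := fun N hN =>
    integral_mono (lc_int (hN₀ N₀ le_rfl)) (lc_int (hN₀ N hN)) fun x => rho_N_mono hF x hN
  set m₀ := ∫ x, ρN N₀ x with hm₀
  have hm₀0 : 0 < m₀ := lc_pos (hN₀ N₀ le_rfl)
  have isq : ∀ N, LC (ρN N) → ∀ b : ℝ, Integrable fun x => (f x - b) ^ 2 * ρN N x := by
    intro N hN b
    have c2 : Continuous fun x => (f x - b) ^ 2 := (hfc.sub continuous_const).pow 2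
    refine (lc_cont hN c2).congr (Eventually.of_forall fun x => ?_)
    simp only [smul_eq_mul]; ring
  have hbd : ∀ N ≥ N₀, |a N - a N₀| ^ 2 ≤ 4 * D / m₀ ^ 2 := by
    intro N hN
    have hL := hN₀ N hN
    have hL0 := hN₀ N₀ le_rfl
    have h1 : ∫ x, (f x - a N) ^ 2 * ρN N₀ x ≤ D / m₀ := by
      have h2 : ∫ x, (f x - a N) ^ 2 * ρN N₀ x ≤ ∫ x, (f x - a N) ^ 2 * ρN N x :=
        integral_mono (isq N₀ hL0 _) (isq N hL _) fun x =>
          mul_le_mul_of_nonneg_left (rho_N_mono hF x hN) (sq_nonneg _)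
      have h3 := hkey N hL
      have h4 : 0 ≤ ∫ x, (f x - a N) ^ 2 * ρN N x := integral_nonneg fun x =>
        mul_nonneg (sq_nonneg _) (hL.nonneg x)
      rw [le_div_iff₀ hm₀0]
      have h5 := mul_le_mul_of_nonneg_right (hmono N hN) h4
      nlinarith
    have h1' : ∫ x, (f x - a N₀) ^ 2 * ρN N₀ x ≤ D / m₀ := by
      have h3 := hkey N₀ hL0
      rw [le_div_iff₀ hm₀0]
      linarith
    have h6 : m₀ * |a N - a N₀| ^ 2 ≤ 2 * (∫ x, (f x - a N) ^ 2 * ρN N₀ x) +
        2 * ∫ x, (f x - a N₀) ^ 2 * ρN N₀ x := by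
      have e1 : m₀ * |a N - a N₀| ^ 2 = ∫ x, |a N - a N₀| ^ 2 * ρN N₀ x := by
        rw [integral_const_mul]
        ring
      rw [e1, ← integral_const_mul, ← integral_const_mul, ← integral_add
        ((isq N₀ hL0 _).const_mul _) ((isq N₀ hL0 _).const_mul _)]
      refine integral_mono ((lc_int hL0).const_mul _) (((isq N₀ hL0 _).const_mul _).add
        ((isq N₀ hL0 _).const_mul _)) fun x => ?_
      simp only
      have h7 := hL0.nonneg x
      have h8 : |a N - a N₀| ^ 2 ≤ 2 * (f x - a N) ^ 2 + 2 * (f x - a N₀) ^ 2 := by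
        rw [sq_abs]
        nlinarith [sq_nonneg ((f x - a N) + (f x - a N₀))]
      nlinarith [mul_le_mul_of_nonneg_right h8 h7]
    rw [le_div_iff₀ (by positivity)]
    have h9 : m₀ * |a N - a N₀| ^ 2 ≤ 4 * (D / m₀) := by linarith
    have h10 := mul_le_mul_of_nonneg_left h9 hm₀0.le
    have h11 : m₀ * (4 * (D / m₀)) = 4 * D := by field_simp
    rw [h11] at h10
    nlinarith
  have hcpt : ∀ N ≥ N₀, a N ∈ Metric.closedBall (a N₀) (Real.sqrt (4 * D / m₀ ^ 2)) := by
    intro N hN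
    rw [Metric.mem_closedBall, Real.dist_eq]
    exact Real.le_sqrt_of_sq_le (hbd N hN)
  obtain ⟨b, -, ψ, hψ, hψl⟩ := (isCompact_closedBall (a N₀)
    (Real.sqrt (4 * D / m₀ ^ 2))).tendsto_subseq (x := fun k => a (N₀ + k))
    (fun k => hcpt _ (Nat.le_add_right _ _))
  set σ : ℕ → ℕ := fun k => N₀ + ψ k with hσ
  have hσt : Tendsto σ atTop atTop :=
    tendsto_atTop_mono (fun k => Nat.le_add_left _ _) hψ.tendsto_atTop
  have hal : Tendsto (fun k => a (σ k)) atTop (𝓝 b) := hψl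
  -- Fatou
  have hfat : ∫⁻ x, ENNReal.ofReal ((f x - b) ^ 2) ∂μ ≤ ENNReal.ofReal D := by
    rw [hint _ (by fun_prop)]
    have h1 : ∫⁻ x, liminf (fun k => ENNReal.ofReal (ρN (σ k) x) *
        ENNReal.ofReal ((f x - a (σ k)) ^ 2)) atTop ≤
        liminf (fun k => ∫⁻ x, ENNReal.ofReal (ρN (σ k) x) *
          ENNReal.ofReal ((f x - a (σ k)) ^ 2)) atTop := by
      refine lintegral_liminf_le fun k => ?_
      exact (fac_prod_meas (fac_N hF _)).ennreal_ofReal.mul (by fun_prop)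
    have h2 : ∀ x, liminf (fun k => ENNReal.ofReal (ρN (σ k) x) *
        ENNReal.ofReal ((f x - a (σ k)) ^ 2)) atTop =
        ENNReal.ofReal (∏ v, F v x) * ENNReal.ofReal ((f x - b) ^ 2) := by
      intro x
      refine Tendsto.liminf_eq ?_
      have h3 : Tendsto (fun k => ENNReal.ofReal (ρN (σ k) x)) atTop
          (𝓝 (ENNReal.ofReal (∏ v, F v x))) := by
        refine tendsto_const_nhds.congr' ?_
        filter_upwards [hσt.eventually (rho_N_ev F x)] with k hk
        rw [hρN]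
        simp only
        rw [hk]
      have h4 : Tendsto (fun k => ENNReal.ofReal ((f x - a (σ k)) ^ 2)) atTop
          (𝓝 (ENNReal.ofReal ((f x - b) ^ 2))) := by
        refine ENNReal.tendsto_ofReal ?_
        exact (tendsto_const_nhds.sub hal).pow 2
      exact ENNReal.Tendsto.mul h3 (Or.inr ENNReal.ofReal_ne_top) h4 (Or.inr ENNReal.ofReal_ne_top)
    simp only [h2] at h1
    refine h1.trans ?_
    have h5 : ∀ k, ∫⁻ x, ENNReal.ofReal (ρN (σ k) x) * ENNReal.ofReal ((f x - a (σ k)) ^ 2) ≤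
        ENNReal.ofReal (D / ∫ x, ρN (σ k) x) := by
      intro k
      have hL := hN₀ (σ k) (Nat.le_add_right _ _)
      have h6 : ∫⁻ x, ENNReal.ofReal (ρN (σ k) x) * ENNReal.ofReal ((f x - a (σ k)) ^ 2) =
          ENNReal.ofReal (∫ x, (f x - a (σ k)) ^ 2 * ρN (σ k) x) := by
        rw [ofReal_integral_eq_lintegral_ofReal (isq _ hL _) (Eventually.of_forall fun x =>
          mul_nonneg (sq_nonneg _) (hL.nonneg x))]
        refine lintegral_congr fun x => ?_
        rw [mul_comm ((f x - a (σ k)) ^ 2), ENNReal.ofReal_mul (hL.nonneg x)]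
      rw [h6]
      refine ENNReal.ofReal_le_ofReal ?_
      rw [le_div_iff₀ (lc_pos hL)]
      have := hkey _ hL
      linarith
    have h7 : Tendsto (fun k => ENNReal.ofReal (D / ∫ x, ρN (σ k) x)) atTop
        (𝓝 (ENNReal.ofReal D)) := by
      refine ENNReal.tendsto_ofReal ?_
      have h8 : Tendsto (fun k => D / ∫ x, ρN (σ k) x) atTop (𝓝 (D / 1)) :=
        tendsto_const_nhds.div (hmlim.comp hσt) one_ne_zero
      rwa [div_one] at h8
    rw [← h7.liminf_eq]
    exact liminf_le_liminf (Eventually.of_forall h5)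
  obtain ⟨hL2, hv⟩ := Pool.Agent.Q73.KL.var_of_lint hfc.measurable hD0 hfat
  rw [← hDT, ← ProbabilityTheory.ofReal_variance hL2]
  refine ENNReal.ofReal_le_ofReal ?_
  rw [ProbabilityTheory.variance_eq_sub hL2]
  exact hv

end Pool.Agent.Q121.EM
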