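import Pool.Agent.Q86.EM.Stm5

/-!
Project FD (helper86), job DPR: KLS for products of log-concave densities.
-/

set_option autoImplicit false

namespace Pool.Agent.Q121.EM

open MeasureTheory Set Filter Topology
open scoped ENNReal InnerProductSpace ContDiff
open Pool.Agent.H888R2.KT (LC)
open Pool.Agent.H212R2.KLS (mu Bdd)
open Pool.Agent.Q86.EM

theorem int_quad {X : Type*} [MeasureSpace X] {p q r : X → ℝ} (hp : Integrable p)
    (hq : Integrable q) (hr : Integrable r) (a b c : ℝ) :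
    ∫ x, (a * p x - b * q x + c * r x) = a * (∫ x, p x) - b * (∫ x, q x) + c * ∫ x, r x := by
  have h1 : Integrable fun x => a * p x := hp.const_mul a
  have h2 : Integrable fun x => b * q x := hq.const_mul b
  have h3 : Integrable fun x => c * r x := hr.const_mul c
  have h4 : Integrable fun x => a * p x - b * q x := h1.sub h2
  rw [integral_add h4 h3, integral_sub h1 h2, integral_const_mul, integral_const_mul,
    integral_const_mul]

section one

variable {κ : Type} [Fintype κ] {ρ : Eu κ → ℝ}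

theorem lc_int (h : LC ρ) : Integrable ρ := by
  refine ⟨h.meas.aestronglyMeasurable, ?_⟩
  rw [hasFiniteIntegral_iff_ofReal (Eventually.of_forall h.nonneg)]
  have h1 := h.fin
  rw [mu, withDensity_apply _ MeasurableSet.univ, Measure.restrict_univ] at h1
  exact lt_top_iff_ne_top.2 h1

theorem lc_bd (h : LC ρ) : ∃ R : ℝ, 0 ≤ R ∧ ∀ x, R < ‖x‖ → ρ x = 0 := by
  obtain ⟨R, hR⟩ := h.bdd
  exact ⟨max R 0, le_max_right _ _, fun x hx => hR x (lt_of_le_of_lt (le_max_left _ _) hx)⟩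

theorem lc_pos (h : LC ρ) : 0 < ∫ x, ρ x := by
  rw [integral_pos_iff_support_of_nonneg h.nonneg (lc_int h)]
  by_contra hc
  have h0 : volume (Function.support ρ) = 0 := by simpa using hc
  apply h.ne
  rw [mu]
  have h1 : (fun x => ENNReal.ofReal (ρ x)) =ᵐ[volume] 0 := by
    rw [measure_eq_zero_iff_ae_notMem] at h0
    filter_upwards [h0] with x hx
    have : ρ x = 0 := by simpa using hx
    simp [this]
  rw [withDensity_congr_ae h1, withDensity_zero]

/-- continuous functions are integrable -/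
theorem lc_cont (h : LC ρ) {F : Type*} [NormedAddCommGroup F] [NormedSpace ℝ F] {g : Eu κ → F}
    (hg : Continuous g) : Integrable fun x => ρ x • g x := by
  obtain ⟨R, -, hR⟩ := lc_bd h
  obtain ⟨B, hB⟩ := (isCompact_closedBall (0 : Eu κ) R).exists_bound_of_continuousOn hg.continuousOn
  refine ((lc_int h).const_mul B).mono' (h.meas.aestronglyMeasurable.smul hg.aestronglyMeasurable)
    (Eventually.of_forall fun x => ?_)
  rw [norm_smul, Real.norm_eq_abs, abs_of_nonneg (h.nonneg x)]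
  by_cases hx : R < ‖x‖
  · rw [hR x hx]; simp
  · push Not at hx
    have := hB x (by simpa using hx)
    nlinarith [h.nonneg x]

/-- dependence on a parameter -/
theorem lc_param (h : LC ρ) {α : Type} [Fintype α] {F : Type*} [NormedAddCommGroup F]
    [NormedSpace ℝ F] {H : Eu α → Eu κ → F} (hH : Continuous (Function.uncurry H)) :
    Continuous fun x => ∫ y, ρ y • H x y := by
  obtain ⟨R, -, hR⟩ := lc_bd h
  rw [continuous_iff_continuousAt]
  intro x₀
  obtain ⟨B, hB⟩ := ((isCompact_closedBall x₀ 1).prod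
    (isCompact_closedBall (0 : Eu κ) R)).exists_bound_of_continuousOn hH.continuousOn
  refine continuousAt_of_dominated (bound := fun y => B * ρ y) ?_ ?_ ((lc_int h).const_mul B) ?_
  · refine Eventually.of_forall fun x => ?_
    have h1 : Continuous (H x) := hH.comp (by fun_prop : Continuous fun y : Eu κ => (x, y))
    exact h.meas.aestronglyMeasurable.smul h1.aestronglyMeasurable
  · filter_upwards [Metric.closedBall_mem_nhds x₀ one_pos] with x hx
    refine Eventually.of_forall fun y => ?_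
    rw [norm_smul, Real.norm_eq_abs, abs_of_nonneg (h.nonneg y)]
    by_cases hy : R < ‖y‖
    · rw [hR y hy]; simp
    · push Not at hy
      have h2 : (x, y) ∈ Metric.closedBall x₀ 1 ×ˢ Metric.closedBall (0 : Eu κ) R :=
        ⟨hx, by simpa using hy⟩
      have h3 := hB _ h2
      simp only [Function.uncurry] at h3
      nlinarith [h.nonneg y]
  · refine Eventually.of_forall fun y => ?_
    have h1 : Continuous fun x => H x y := hH.comp (by fun_prop : Continuous fun x : Eu α => (x, y))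
    exact (h1.const_smul (ρ y)).continuousAt

/-- Cauchy-Schwarz -/
theorem lc_cs (h : LC ρ) {u : Eu κ → ℝ} (hu : Continuous u) :
    (∫ x, ρ x * u x) ^ 2 ≤ (∫ x, ρ x) * ∫ x, ρ x * u x ^ 2 := by
  have hm := lc_pos h
  have i1 : Integrable fun x => ρ x * u x := lc_cont h hu
  have i2 : Integrable fun x => ρ x * u x ^ 2 := lc_cont h (hu.pow 2)
  set m := ∫ x, ρ x with hmd
  set a := ∫ x, ρ x * u x with ha
  have h0 : 0 ≤ ∫ x, ρ x * (m * u x - a) ^ 2 := integral_nonneg fun x =>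
    mul_nonneg (h.nonneg x) (sq_nonneg _)
  have h1 : ∫ x, ρ x * (m * u x - a) ^ 2 =
      m ^ 2 * (∫ x, ρ x * u x ^ 2) - 2 * m * a * a + a ^ 2 * m := by
    have e1 : (fun x => ρ x * (m * u x - a) ^ 2) = fun x =>
        m ^ 2 * (ρ x * u x ^ 2) - (2 * m * a) * (ρ x * u x) + a ^ 2 * ρ x := by
      funext x; ring
    rw [e1, int_quad i2 i1 (lc_int h)]
  rw [h1] at h0
  have h2 : 0 ≤ m * (m * (∫ x, ρ x * u x ^ 2) - a ^ 2) := by nlinarith
  have h3 := nonneg_of_mul_nonneg_right h2 hm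
  linarith

/-- Cauchy-Schwarz for vectors -/
theorem lc_cs_norm (h : LC ρ) {F : Type*} [NormedAddCommGroup F] [NormedSpace ℝ F]
    {u : Eu κ → F} (hu : Continuous u) :
    ‖∫ x, ρ x • u x‖ ^ 2 ≤ (∫ x, ρ x) * ∫ x, ρ x * ‖u x‖ ^ 2 := by
  refine le_trans ?_ (lc_cs h hu.norm)
  refine pow_le_pow_left₀ (norm_nonneg _) ?_ 2
  refine (norm_integral_le_integral_norm _).trans (le_of_eq ?_)
  refine integral_congr_ae (Eventually.of_forall fun x => ?_)
  simp only
  rw [norm_smul, Real.norm_eq_abs, abs_of_nonneg (h.nonneg x)]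

end one

section two

variable {α β : Type} [Fintype α] [Fintype β]

/-- the vector with given coordinates -/
noncomputable def jn (p : Eu α × Eu β) : Eu (α ⊕ β) := WithLp.toLp 2 (Sum.elim p.1.ofLp p.2.ofLp)

/-- the same as a continuous linear map -/
noncomputable def jL (α β : Type) [Fintype α] [Fintype β] : Eu α × Eu β →L[ℝ] Eu (α ⊕ β) :=
  LinearMap.toContinuousLinearMap
    { toFun := jn
      map_add' := by
        intro p q
        ext c
        rcases c with i | j <;> rfl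
      map_smul' := by
        intro a p
        ext c
        rcases c with i | j <;> rfl }

theorem jL_apply (p : Eu α × Eu β) : jL α β p = jn p := rfl

theorem jn_cont : Continuous (jn : Eu α × Eu β → Eu (α ⊕ β)) := (jL α β).continuous

theorem jn_mp : MeasurePreserving (jn : Eu α × Eu β → Eu (α ⊕ β)) volume volume := by
  have h1 := PiLp.volume_preserving_toLp (α ⊕ β)
  have h2 := (volume_measurePreserving_sumPiEquivProdPi_symm fun _ : α ⊕ β => ℝ)
  have h3 : MeasurePreserving (Prod.map (WithLp.ofLp : Eu α → α → ℝ) (WithLp.ofLp : Eu β → β → ℝ))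
      (volume : Measure (Eu α × Eu β)) volume :=
    (PiLp.volume_preserving_ofLp α).prod (PiLp.volume_preserving_ofLp β)
  have h4 := h1.comp (h2.comp h3)
  have e : (jn : Eu α × Eu β → Eu (α ⊕ β)) = (WithLp.toLp 2 : (α ⊕ β → ℝ) → Eu (α ⊕ β)) ∘
      ((MeasurableEquiv.sumPiEquivProdPi fun _ : α ⊕ β => ℝ).symm ∘
        Prod.map (WithLp.ofLp : Eu α → α → ℝ) (WithLp.ofLp : Eu β → β → ℝ)) := by
    funext z
    refine PiLp.ext fun c => ?_
    rcases c with j | i <;> rfl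
  rw [e]
  exact h4

/-- the parts -/
noncomputable def pa (z : Eu (α ⊕ β)) : Eu α := WithLp.toLp 2 fun i => z (Sum.inl i)
noncomputable def pb (z : Eu (α ⊕ β)) : Eu β := WithLp.toLp 2 fun j => z (Sum.inr j)

theorem pa_jn (p : Eu α × Eu β) : pa (jn p) = p.1 := rfl
theorem pb_jn (p : Eu α × Eu β) : pb (jn p) = p.2 := rfl

theorem jn_pa (z : Eu (α ⊕ β)) : jn (pa z, pb z) = z := by
  ext c
  rcases c with j | i <;> rfl

theorem pa_cont : Continuous (pa : Eu (α ⊕ β) → Eu α) := by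
  unfold pa
  fun_prop

theorem pb_cont : Continuous (pb : Eu (α ⊕ β) → Eu β) := by
  unfold pb
  fun_prop

theorem jn_emb : MeasurableEmbedding (jn : Eu α × Eu β → Eu (α ⊕ β)) := by
  have e : MeasurableEquiv (Eu α × Eu β) (Eu (α ⊕ β)) :=
    { toFun := jn
      invFun := fun z => (pa z, pb z)
      left_inv := fun p => rfl
      right_inv := jn_pa
      measurable_toFun := jn_cont.measurable
      measurable_invFun := pa_cont.measurable.prodMk pb_cont.measurable }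
  refine ⟨?_, jn_cont.measurable, ?_⟩
  · intro p q hpq
    have h1 : pa (jn p) = pa (jn q) := by rw [hpq]
    have h2 : pb (jn p) = pb (jn q) := by rw [hpq]
    rw [pa_jn, pa_jn] at h1
    rw [pb_jn, pb_jn] at h2
    exact Prod.ext h1 h2
  · intro s hs
    have h3 : jn '' s = (fun z : Eu (α ⊕ β) => (pa z, pb z)) ⁻¹' s := by
      ext z
      constructor
      · rintro ⟨p, hp, rfl⟩
        exact hp
      · intro hz
        exact ⟨(pa z, pb z), hz, jn_pa z⟩
    rw [h3]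
    exact (pa_cont.measurable.prodMk pb_cont.measurable) hs

/-- the product density -/
noncomputable def pd2 (ρ₁ : Eu α → ℝ) (ρ₂ : Eu β → ℝ) (z : Eu (α ⊕ β)) : ℝ := ρ₁ (pa z) * ρ₂ (pb z)

variable {ρ₁ : Eu α → ℝ} {ρ₂ : Eu β → ℝ}

theorem int_prod (h1 : LC ρ₁) (h2 : LC ρ₂) {g : Eu (α ⊕ β) → ℝ} (hg : Continuous g) :
    Integrable (fun p : Eu α × Eu β => g (jn p) * (ρ₁ p.1 * ρ₂ p.2)) := by
  obtain ⟨R₁, -, hR₁⟩ := lc_bd h1
  obtain ⟨R₂, -, hR₂⟩ := lc_bd h2
  obtain ⟨B, hB⟩ := ((isCompact_closedBall (0 : Eu α) R₁).prod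
    (isCompact_closedBall (0 : Eu β) R₂)).exists_bound_of_continuousOn
      (hg.comp jn_cont).continuousOn
  have hi : Integrable (fun p : Eu α × Eu β => ρ₁ p.1 * ρ₂ p.2) := (lc_int h1).mul_prod (lc_int h2)
  refine (hi.const_mul B).mono' ((hg.comp jn_cont).aestronglyMeasurable.mul
    hi.aestronglyMeasurable) (Eventually.of_forall fun p => ?_)
  rw [norm_mul, Real.norm_eq_abs (ρ₁ p.1 * ρ₂ p.2),
    abs_of_nonneg (mul_nonneg (h1.nonneg _) (h2.nonneg _))]
  by_cases ha : R₁ < ‖p.1‖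
  · rw [hR₁ _ ha]; simp
  by_cases hb : R₂ < ‖p.2‖
  · rw [hR₂ _ hb]; simp
  push Not at ha hb
  have h3 := hB p ⟨by simpa using ha, by simpa using hb⟩
  exact mul_le_mul_of_nonneg_right h3 (mul_nonneg (h1.nonneg _) (h2.nonneg _))

theorem fub (h1 : LC ρ₁) (h2 : LC ρ₂) {g : Eu (α ⊕ β) → ℝ} (hg : Continuous g) :
    Integrable (fun z => g z * pd2 ρ₁ ρ₂ z) ∧
    ∫ z, g z * pd2 ρ₁ ρ₂ z = ∫ x, ρ₁ x * ∫ y, ρ₂ y * g (jn (x, y)) := by
  have hi := int_prod h1 h2 hg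
  have e1 : (fun p : Eu α × Eu β => g (jn p) * (ρ₁ p.1 * ρ₂ p.2)) =
      (fun z => g z * pd2 ρ₁ ρ₂ z) ∘ jn := rfl
  refine ⟨?_, ?_⟩
  · rw [e1] at hi
    exact (jn_mp.integrable_comp_emb jn_emb).1 hi
  · rw [← jn_mp.integral_comp jn_emb]
    have h3 : ∫ p : Eu α × Eu β, g (jn p) * pd2 ρ₁ ρ₂ (jn p) =
        ∫ x, ∫ y, g (jn (x, y)) * (ρ₁ x * ρ₂ y) := integral_prod _ hi
    rw [h3]
    refine integral_congr_ae (Eventually.of_forall fun x => ?_)
    simp only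
    rw [← integral_const_mul]
    refine integral_congr_ae (Eventually.of_forall fun y => ?_)
    simp only
    ring

/-- partial embeddings -/
noncomputable def ia (α β : Type) [Fintype α] [Fintype β] : Eu α →L[ℝ] Eu (α ⊕ β) :=
  (jL α β).comp (ContinuousLinearMap.inl ℝ (Eu α) (Eu β))
noncomputable def ib (α β : Type) [Fintype α] [Fintype β] : Eu β →L[ℝ] Eu (α ⊕ β) :=
  (jL α β).comp (ContinuousLinearMap.inr ℝ (Eu α) (Eu β))

theorem norm_split (L : Eu (α ⊕ β) →L[ℝ] ℝ) :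
    ‖L.comp (ia α β)‖ ^ 2 + ‖L.comp (ib α β)‖ ^ 2 = ‖L‖ ^ 2 := by
  classical
  rw [Pool.Agent.Q86.FIB.dual_norm_sq', Pool.Agent.Q86.FIB.dual_norm_sq',
    Pool.Agent.Q86.FIB.dual_norm_sq', Fintype.sum_sum_type]
  congr 1
  · refine Finset.sum_congr rfl fun i _ => ?_
    have e : ia α β (EuclideanSpace.single i 1) = EuclideanSpace.single (Sum.inl i) 1 := by
      ext c
      rcases c with j | j
      · simp [ia, jL_apply, jn, Pi.single_apply]
      · simp [ia, jL_apply, jn]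
    rw [ContinuousLinearMap.comp_apply, e]
  · refine Finset.sum_congr rfl fun i _ => ?_
    have e : ib α β (EuclideanSpace.single i 1) = EuclideanSpace.single (Sum.inr i) 1 := by
      ext c
      rcases c with j | j
      · simp [ib, jL_apply, jn]
      · simp [ib, jL_apply, jn, Pi.single_apply]
    rw [ContinuousLinearMap.comp_apply, e]

theorem fd_a {f : Eu (α ⊕ β) → ℝ} (hf : ContDiff ℝ 1 f) (x : Eu α) (y : Eu β) :
    HasFDerivAt (fun x => f (jn (x, y))) ((fderiv ℝ f (jn (x, y))).comp (ia α β)) x := by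
  have h1 : HasFDerivAt (fun x : Eu α => jL α β (x, y)) (ia α β) x := by
    have h2 : HasFDerivAt (fun x : Eu α => (x, y)) (ContinuousLinearMap.inl ℝ (Eu α) (Eu β)) x :=
      hasFDerivAt_prodMk_left x y
    exact (jL α β).hasFDerivAt.comp x h2
  exact ((hf.differentiable one_ne_zero (jn (x, y))).hasFDerivAt).comp x h1

theorem fd_b {f : Eu (α ⊕ β) → ℝ} (hf : ContDiff ℝ 1 f) (x : Eu α) (y : Eu β) :
    HasFDerivAt (fun y => f (jn (x, y))) ((fderiv ℝ f (jn (x, y))).comp (ib α β)) y := by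
  have h1 : HasFDerivAt (fun y : Eu β => jL α β (x, y)) (ib α β) y := by
    have h2 : HasFDerivAt (fun y : Eu β => (x, y)) (ContinuousLinearMap.inr ℝ (Eu α) (Eu β)) y :=
      hasFDerivAt_prodMk_right x y
    exact (jL α β).hasFDerivAt.comp y h2
  exact ((hf.differentiable one_ne_zero (jn (x, y))).hasFDerivAt).comp y h1

/-- tensorisation -/
theorem pid_prod (h1 : LC ρ₁) (h2 : LC ρ₂) {c : ℝ} (hc : 0 ≤ c) (p1 : PId ρ₁ c) (p2 : PId ρ₂ c) :
    PId (pd2 ρ₁ ρ₂) c := by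
  intro f hf
  have hfc := hf.continuous
  have hfd : Continuous (fderiv ℝ f) := hf.continuous_fderiv one_ne_zero
  set m₁ := ∫ x, ρ₁ x with hm₁
  set m₂ := ∫ y, ρ₂ y with hm₂
  have hm1 : 0 < m₁ := lc_pos h1
  have hm2 : 0 < m₂ := lc_pos h2
  set A : Eu α → ℝ := fun x => ∫ y, ρ₂ y * f (jn (x, y)) ^ 2 with hA
  set G : Eu α → ℝ := fun x => ∫ y, ρ₂ y * f (jn (x, y)) with hG
  set Bf : Eu α → ℝ := fun x => ∫ y, ρ₂ y * ‖(fderiv ℝ f (jn (x, y))).comp (ib α β)‖ ^ 2 with hB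
  set Cf : Eu α → ℝ := fun x => ∫ y, ρ₂ y * ‖(fderiv ℝ f (jn (x, y))).comp (ia α β)‖ ^ 2 with hC
  have cjn : Continuous (fun p : Eu α × Eu β => jn p) := jn_cont
  have cd : Continuous (fun p : Eu α × Eu β => fderiv ℝ f (jn p)) := hfd.comp cjn
  have cda : Continuous (fun p : Eu α × Eu β => (fderiv ℝ f (jn p)).comp (ia α β)) :=
    cd.clm_comp continuous_const
  have cdb : Continuous (fun p : Eu α × Eu β => (fderiv ℝ f (jn p)).comp (ib α β)) :=
    cd.clm_comp continuous_const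
  have cA : Continuous A := lc_param h2 (H := fun x y => f (jn (x, y)) ^ 2)
    ((hfc.comp cjn).pow 2)
  have cG : Continuous G := lc_param h2 (H := fun x y => f (jn (x, y))) (hfc.comp cjn)
  have cB : Continuous Bf := lc_param h2
    (H := fun x y => ‖(fderiv ℝ f (jn (x, y))).comp (ib α β)‖ ^ 2) (cdb.norm.pow 2)
  have cC : Continuous Cf := lc_param h2
    (H := fun x y => ‖(fderiv ℝ f (jn (x, y))).comp (ia α β)‖ ^ 2) (cda.norm.pow 2)
  have cxy : ∀ x : Eu α, Continuous fun y : Eu β => jn (x, y) := fun x =>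
    cjn.comp (by fun_prop : Continuous fun y : Eu β => (x, y))
  -- derivative of G
  have dG : ∀ x₀, HasFDerivAt G (∫ y, ρ₂ y • (fderiv ℝ f (jn (x₀, y))).comp (ia α β)) x₀ := by
    intro x₀
    obtain ⟨R, -, hR⟩ := lc_bd h2
    obtain ⟨B, hBd⟩ := ((isCompact_closedBall x₀ 1).prod
      (isCompact_closedBall (0 : Eu β) R)).exists_bound_of_continuousOn cda.continuousOn
    refine hasFDerivAt_integral_of_dominated_of_fderiv_le (bound := fun y => B * ρ₂ y)
      (F' := fun x y => ρ₂ y • (fderiv ℝ f (jn (x, y))).comp (ia α β))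
      (Metric.closedBall_mem_nhds x₀ one_pos) ?_ ?_ ?_ ?_ ((lc_int h2).const_mul B) ?_
    · exact Eventually.of_forall fun x =>
        h2.meas.aestronglyMeasurable.mul (hfc.comp (cxy x)).aestronglyMeasurable
    · exact lc_cont h2 (hfc.comp (cxy x₀))
    · exact (lc_cont h2 (cda.comp (by fun_prop : Continuous fun y : Eu β =>
        (x₀, y)))).aestronglyMeasurable
    · refine Eventually.of_forall fun y x hx => ?_
      rw [norm_smul, Real.norm_eq_abs, abs_of_nonneg (h2.nonneg y)]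
      by_cases hy : R < ‖y‖
      · rw [hR y hy]; simp
      · push Not at hy
        have h3 := hBd (x, y) ⟨hx, by simpa using hy⟩
        simp only at h3
        nlinarith [h2.nonneg y]
    · refine Eventually.of_forall fun y x _ => ?_
      exact (fd_a hf x y).const_mul (ρ₂ y)
  have gG : ContDiff ℝ 1 G := by
    rw [contDiff_one_iff_fderiv]
    refine ⟨fun x => (dG x).differentiableAt, ?_⟩
    have e : fderiv ℝ G = fun x => ∫ y, ρ₂ y • (fderiv ℝ f (jn (x, y))).comp (ia α β) := by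
      funext x
      exact (dG x).fderiv
    rw [e]
    exact lc_param h2 (H := fun x y => (fderiv ℝ f (jn (x, y))).comp (ia α β)) cda
  have nG : ∀ x, ‖fderiv ℝ G x‖ ^ 2 ≤ m₂ * Cf x := by
    intro x
    rw [(dG x).fderiv]
    exact lc_cs_norm h2 (cda.comp (by fun_prop : Continuous fun y : Eu β => (x, y)))
  -- step 1
  have s1 : ∀ x, m₂ * A x - G x ^ 2 ≤ c * m₂ * Bf x := by
    intro x
    have h3 := p2 (fun y => f (jn (x, y))) (hf.comp (by
      have : ContDiff ℝ 1 fun y : Eu β => jL α β (x, y) :=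
        (jL α β).contDiff.comp (by fun_prop)
      exact this))
    have e1 : ∫ y, f (jn (x, y)) ^ 2 * ρ₂ y = A x :=
      integral_congr_ae (Eventually.of_forall fun y => mul_comm _ _)
    have e2 : ∫ y, f (jn (x, y)) * ρ₂ y = G x :=
      integral_congr_ae (Eventually.of_forall fun y => mul_comm _ _)
    have e3 : ∫ y, ‖fderiv ℝ (fun y => f (jn (x, y))) y‖ ^ 2 * ρ₂ y = Bf x := by
      refine integral_congr_ae (Eventually.of_forall fun y => ?_)
      simp only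
      rw [(fd_b hf x y).fderiv, mul_comm]
    rw [e1, e2, e3] at h3
    exact h3
  have iA : Integrable fun x => ρ₁ x * A x := lc_cont h1 cA
  have iG : Integrable fun x => ρ₁ x * G x ^ 2 := lc_cont h1 (cG.pow 2)
  have iB : Integrable fun x => ρ₁ x * Bf x := lc_cont h1 cB
  have iC : Integrable fun x => ρ₁ x * Cf x := lc_cont h1 cC
  have s2 : m₂ * (∫ x, ρ₁ x * A x) - ∫ x, ρ₁ x * G x ^ 2 ≤ c * m₂ * ∫ x, ρ₁ x * Bf x := by
    have h3 : ∫ x, (m₂ * (ρ₁ x * A x) - ρ₁ x * G x ^ 2) ≤ ∫ x, c * m₂ * (ρ₁ x * Bf x) := by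
      refine integral_mono ((iA.const_mul _).sub iG) (iB.const_mul _) fun x => ?_
      simp only
      have := mul_le_mul_of_nonneg_left (s1 x) (h1.nonneg x)
      nlinarith
    rw [integral_sub (iA.const_mul _) iG, integral_const_mul, integral_const_mul] at h3
    exact h3
  -- step 2
  have s3 : m₁ * (∫ x, ρ₁ x * G x ^ 2) - (∫ x, ρ₁ x * G x) ^ 2 ≤
      c * m₁ * (m₂ * ∫ x, ρ₁ x * Cf x) := by
    have h3 := p1 G gG
    have e1 : ∫ x, G x ^ 2 * ρ₁ x = ∫ x, ρ₁ x * G x ^ 2 :=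
      integral_congr_ae (Eventually.of_forall fun y => mul_comm _ _)
    have e2 : ∫ x, G x * ρ₁ x = ∫ x, ρ₁ x * G x :=
      integral_congr_ae (Eventually.of_forall fun y => mul_comm _ _)
    rw [e1, e2] at h3
    refine h3.trans ?_
    refine mul_le_mul_of_nonneg_left ?_ (mul_nonneg hc hm1.le)
    rw [← integral_const_mul]
    have cgG : Continuous (fderiv ℝ G) := gG.continuous_fderiv one_ne_zero
    have i3 : Integrable fun x => ‖fderiv ℝ G x‖ ^ 2 * ρ₁ x := by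
      have c2 : Continuous fun x => ‖fderiv ℝ G x‖ ^ 2 := cgG.norm.pow 2
      refine (lc_cont h1 c2).congr (Eventually.of_forall fun x => ?_)
      simp only [smul_eq_mul]
      ring
    refine integral_mono i3 (iC.const_mul _) fun x => ?_
    simp only
    have := mul_le_mul_of_nonneg_left (nG x) (h1.nonneg x)
    nlinarith
  -- the integrals over the product
  have E0 : ∫ z, pd2 ρ₁ ρ₂ z = m₁ * m₂ := by
    have h3 := (fub h1 h2 (g := fun _ => (1 : ℝ)) continuous_const).2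
    simp only [one_mul, mul_one] at h3
    rw [h3, integral_mul_const]
  have E1 : ∫ z, f z ^ 2 * pd2 ρ₁ ρ₂ z = ∫ x, ρ₁ x * A x := (fub h1 h2 (hfc.pow 2)).2
  have E2 : ∫ z, f z * pd2 ρ₁ ρ₂ z = ∫ x, ρ₁ x * G x := (fub h1 h2 hfc).2
  have E3 : ∫ z, ‖fderiv ℝ f z‖ ^ 2 * pd2 ρ₁ ρ₂ z =
      (∫ x, ρ₁ x * Bf x) + ∫ x, ρ₁ x * Cf x := by
    have c2 : Continuous fun z => ‖fderiv ℝ f z‖ ^ 2 := hfd.norm.pow 2
    rw [(fub h1 h2 c2).2, ← integral_add iB iC]
    refine integral_congr_ae (Eventually.of_forall fun x => ?_)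
    simp only
    rw [← mul_add]
    congr 1
    have i4 : Integrable fun y => ρ₂ y * ‖(fderiv ℝ f (jn (x, y))).comp (ib α β)‖ ^ 2 :=
      lc_cont h2 ((cdb.comp (by fun_prop : Continuous fun y : Eu β => (x, y))).norm.pow 2)
    have i5 : Integrable fun y => ρ₂ y * ‖(fderiv ℝ f (jn (x, y))).comp (ia α β)‖ ^ 2 :=
      lc_cont h2 ((cda.comp (by fun_prop : Continuous fun y : Eu β => (x, y))).norm.pow 2)
    rw [← integral_add i4 i5]
    refine integral_congr_ae (Eventually.of_forall fun y => ?_)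
    simp only
    rw [← norm_split]
    ring
  rw [E0, E1, E2, E3]
  have h4 := mul_le_mul_of_nonneg_left s2 hm1.le
  nlinarith

theorem cvd_a (h1 : LC ρ₁) (h2 : LC ρ₂) {s : ℝ} (h : CVd (pd2 ρ₁ ρ₂) s) : CVd ρ₁ s := by
  intro θ
  have hm1 := lc_pos h1
  have hm2 := lc_pos h2
  have h3 := h (jn (θ, 0))
  have e0 : ∫ z, pd2 ρ₁ ρ₂ z = (∫ x, ρ₁ x) * ∫ y, ρ₂ y := by
    have h3 := (fub h1 h2 (g := fun _ => (1 : ℝ)) continuous_const).2
    simp only [one_mul, mul_one] at h3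
    rw [h3, integral_mul_const]
  have ei : ∀ (x : Eu α) (y : Eu β), ⟪jn (θ, (0 : Eu β)), jn (x, y)⟫_ℝ = ⟪θ, x⟫_ℝ := by
    intro x y
    rw [PiLp.inner_apply, PiLp.inner_apply, Fintype.sum_sum_type]
    simp [jn]
  have en : ‖jn (θ, (0 : Eu β))‖ ^ 2 = ‖θ‖ ^ 2 := by
    rw [← real_inner_self_eq_norm_sq, ei, real_inner_self_eq_norm_sq]
  have c1 : Continuous fun z : Eu (α ⊕ β) => ⟪jn (θ, (0 : Eu β)), z⟫_ℝ := by fun_prop
  have e1 : ∫ z, ⟪jn (θ, (0 : Eu β)), z⟫_ℝ ^ 2 * pd2 ρ₁ ρ₂ z =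
      (∫ x, ⟪θ, x⟫_ℝ ^ 2 * ρ₁ x) * ∫ y, ρ₂ y := by
    have c2 : Continuous fun z : Eu (α ⊕ β) => ⟪jn (θ, (0 : Eu β)), z⟫_ℝ ^ 2 := c1.pow 2
    rw [(fub h1 h2 c2).2, ← integral_mul_const]
    refine integral_congr_ae (Eventually.of_forall fun x => ?_)
    simp only [ei]
    rw [integral_mul_const]
    ring
  have e2 : ∫ z, ⟪jn (θ, (0 : Eu β)), z⟫_ℝ * pd2 ρ₁ ρ₂ z =
      (∫ x, ⟪θ, x⟫_ℝ * ρ₁ x) * ∫ y, ρ₂ y := by
    rw [(fub h1 h2 c1).2, ← integral_mul_const]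
    refine integral_congr_ae (Eventually.of_forall fun x => ?_)
    simp only [ei]
    rw [integral_mul_const]
    ring
  rw [e0, e1, e2, en] at h3
  set m₁ := ∫ x, ρ₁ x
  set m₂ := ∫ y, ρ₂ y
  have h4 : m₂ ^ 2 * (m₁ * (∫ x, ⟪θ, x⟫_ℝ ^ 2 * ρ₁ x) - (∫ x, ⟪θ, x⟫_ℝ * ρ₁ x) ^ 2) ≤
      m₂ ^ 2 * (s * ‖θ‖ ^ 2 * m₁ ^ 2) := by nlinarith
  exact le_of_mul_le_mul_left h4 (by positivity)

theorem cvd_b (h1 : LC ρ₁) (h2 : LC ρ₂) {s : ℝ} (h : CVd (pd2 ρ₁ ρ₂) s) : CVd ρ₂ s := by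
  intro θ
  have hm1 := lc_pos h1
  have hm2 := lc_pos h2
  have h3 := h (jn (0, θ))
  have e0 : ∫ z, pd2 ρ₁ ρ₂ z = (∫ x, ρ₁ x) * ∫ y, ρ₂ y := by
    have h3 := (fub h1 h2 (g := fun _ => (1 : ℝ)) continuous_const).2
    simp only [one_mul, mul_one] at h3
    rw [h3, integral_mul_const]
  have ei : ∀ (x : Eu α) (y : Eu β), ⟪jn ((0 : Eu α), θ), jn (x, y)⟫_ℝ = ⟪θ, y⟫_ℝ := by
    intro x y
    rw [PiLp.inner_apply, PiLp.inner_apply, Fintype.sum_sum_type]
    simp [jn]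
  have en : ‖jn ((0 : Eu α), θ)‖ ^ 2 = ‖θ‖ ^ 2 := by
    rw [← real_inner_self_eq_norm_sq, ei, real_inner_self_eq_norm_sq]
  have c1 : Continuous fun z : Eu (α ⊕ β) => ⟪jn ((0 : Eu α), θ), z⟫_ℝ := by fun_prop
  have e1 : ∫ z, ⟪jn ((0 : Eu α), θ), z⟫_ℝ ^ 2 * pd2 ρ₁ ρ₂ z =
      (∫ x, ρ₁ x) * ∫ y, ⟪θ, y⟫_ℝ ^ 2 * ρ₂ y := by
    have c2 : Continuous fun z : Eu (α ⊕ β) => ⟪jn ((0 : Eu α), θ), z⟫_ℝ ^ 2 := c1.pow 2
    rw [(fub h1 h2 c2).2, ← integral_mul_const]
    refine integral_congr_ae (Eventually.of_forall fun x => ?_)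
    simp only [ei]
    congr 1
    exact integral_congr_ae (Eventually.of_forall fun y => mul_comm _ _)
  have e2 : ∫ z, ⟪jn ((0 : Eu α), θ), z⟫_ℝ * pd2 ρ₁ ρ₂ z =
      (∫ x, ρ₁ x) * ∫ y, ⟪θ, y⟫_ℝ * ρ₂ y := by
    rw [(fub h1 h2 c1).2, ← integral_mul_const]
    refine integral_congr_ae (Eventually.of_forall fun x => ?_)
    simp only [ei]
    congr 1
    exact integral_congr_ae (Eventually.of_forall fun y => mul_comm _ _)
  rw [e0, e1, e2, en] at h3
  set m₁ := ∫ x, ρ₁ x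
  set m₂ := ∫ y, ρ₂ y
  have h4 : m₁ ^ 2 * (m₂ * (∫ x, ⟪θ, x⟫_ℝ ^ 2 * ρ₂ x) - (∫ x, ⟪θ, x⟫_ℝ * ρ₂ x) ^ 2) ≤
      m₁ ^ 2 * (s * ‖θ‖ ^ 2 * m₂ ^ 2) := by nlinarith
  exact le_of_mul_le_mul_left h4 (by positivity)

end two

/-- in dimension zero there is nothing to prove -/
theorem pid_subsingleton {κ : Type} [Fintype κ] [Subsingleton (Eu κ)] (ρ : Eu κ → ℝ) (c : ℝ) :
    PId ρ c := by
  intro f _
  have h1 : ∀ x, f x = f 0 := fun x => by rw [Subsingleton.elim x 0]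
  have h2 : ∀ x, ‖fderiv ℝ f x‖ = 0 := by
    intro x
    rw [norm_eq_zero]
    ext v
    rw [Subsingleton.elim v 0]
    simp
  simp only [h1, h2]
  rw [integral_const_mul, integral_const_mul]
  have : ∫ x, (0 : ℝ) ^ 2 * ρ x = 0 := by simp
  rw [this]
  apply le_of_eq
  ring

/-- a negative bound of the covariance is possible only in dimension zero -/
theorem cvd_neg {κ : Type} [Fintype κ] {ρ : Eu κ → ℝ} (hm : 0 < ∫ x, ρ x)
    (hcs : ∀ θ : Eu κ, (∫ x, ⟪θ, x⟫_ℝ * ρ x) ^ 2 ≤ (∫ x, ρ x) * ∫ x, ⟪θ, x⟫_ℝ ^ 2 * ρ x) {s : ℝ}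
    (hs : s < 0) (h : CVd ρ s) : Subsingleton (Eu κ) := by
  refine ⟨fun a b => ?_⟩
  have key : ∀ θ : Eu κ, θ = 0 := by
    intro θ
    by_contra hθ
    have h1 := h θ
    have h2 := hcs θ
    have h3 : 0 < ‖θ‖ := norm_pos_iff.2 hθ
    have h4 : s * ‖θ‖ ^ 2 * (∫ x, ρ x) ^ 2 < 0 := by
      have : 0 < ‖θ‖ ^ 2 * (∫ x, ρ x) ^ 2 := by positivity
      nlinarith
    linarith
  rw [key a, key b]

theorem dpr : S_DPR := by
  intro α β _ _ ρ₁ ρ₂ h1 h2 k hk k1 k2
  have e : (fun x : Eu (α ⊕ β) => ρ₁ (WithLp.toLp 2 fun i => x (Sum.inl i)) *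
    ρ₂ (WithLp.toLp 2 fun j => x (Sum.inr j))) = pd2 ρ₁ ρ₂ := rfl
  rw [e]
  intro s hs
  rcases lt_or_ge s 0 with hs0 | hs0
  · have hm1 := lc_pos h1
    have hm2 := lc_pos h2
    have e0 : ∫ z, pd2 ρ₁ ρ₂ z = (∫ x, ρ₁ x) * ∫ y, ρ₂ y := by
      have h3 := (fub h1 h2 (g := fun _ => (1 : ℝ)) continuous_const).2
      simp only [one_mul, mul_one] at h3
      rw [h3, integral_mul_const]
    have hM : 0 < ∫ z, pd2 ρ₁ ρ₂ z := by rw [e0]; positivity
    have hss : Subsingleton (Eu (α ⊕ β)) := by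
      refine cvd_neg hM (fun θ => ?_) hs0 hs
      have c1 : Continuous fun z : Eu (α ⊕ β) => ⟪θ, z⟫_ℝ := by fun_prop
      have i0 : Integrable (pd2 ρ₁ ρ₂) := by
        have := (fub h1 h2 (g := fun _ => (1 : ℝ)) continuous_const).1
        simpa using this
      have i1 := (fub h1 h2 c1).1
      have c2 : Continuous fun z : Eu (α ⊕ β) => ⟪θ, z⟫_ℝ ^ 2 := c1.pow 2
      have i2 := (fub h1 h2 c2).1
      set M := ∫ z, pd2 ρ₁ ρ₂ z
      set a := ∫ z, ⟪θ, z⟫_ℝ * pd2 ρ₁ ρ₂ z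
      have h0 : 0 ≤ ∫ z, (M * ⟪θ, z⟫_ℝ - a) ^ 2 * pd2 ρ₁ ρ₂ z := integral_nonneg fun z =>
        mul_nonneg (sq_nonneg _) (mul_nonneg (h1.nonneg _) (h2.nonneg _))
      have h3 : ∫ z, (M * ⟪θ, z⟫_ℝ - a) ^ 2 * pd2 ρ₁ ρ₂ z =
          M ^ 2 * (∫ z, ⟪θ, z⟫_ℝ ^ 2 * pd2 ρ₁ ρ₂ z) - 2 * M * a * a + a ^ 2 * M := by
        have e1 : (fun z => (M * ⟪θ, z⟫_ℝ - a) ^ 2 * pd2 ρ₁ ρ₂ z) = fun z =>
            M ^ 2 * (⟪θ, z⟫_ℝ ^ 2 * pd2 ρ₁ ρ₂ z) - (2 * M * a) * (⟪θ, z⟫_ℝ * pd2 ρ₁ ρ₂ z) +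
              a ^ 2 * pd2 ρ₁ ρ₂ z := by
          funext z; ring
        rw [e1, int_quad i2 i1 i0]
      rw [h3] at h0
      have h5 : 0 ≤ M * (M * (∫ z, ⟪θ, z⟫_ℝ ^ 2 * pd2 ρ₁ ρ₂ z) - a ^ 2) := by nlinarith
      have h6 := nonneg_of_mul_nonneg_right h5 hM
      linarith
    exact pid_subsingleton _ _
  · exact pid_prod h1 h2 (mul_nonneg hk hs0) (k1 s (cvd_a h1 h2 hs)) (k2 s (cvd_b h1 h2 hs))

end Pool.Agent.Q121.EM
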