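import Pool.Agent.Q86.EM.Stm5
import Pool.Agent.Q275.EM.Ind

/-!
Project FD (helper86), job DRI: reindexing.
-/

set_option autoImplicit false

namespace Pool.Agent.Q121.EM

open MeasureTheory Set Filter Topology
open scoped ENNReal InnerProductSpace ContDiff
open Pool.Agent.H888R2.KT (LC)
open Pool.Agent.H212R2.KLS (mu Bdd)
open Pool.Agent.Q86.EM

section

variable {κ κ' : Type} [Fintype κ] [Fintype κ'] (E : Eu κ ≃ₗᵢ[ℝ] Eu κ')

theorem int_E (g : Eu κ' → ℝ) : ∫ x, g (E x) = ∫ y, g y := by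
  have hp : MeasurePreserving E (volume : Measure (Eu κ)) (volume : Measure (Eu κ')) :=
    E.measurePreserving
  have he : MeasurableEmbedding E := E.toHomeomorph.measurableEmbedding
  exact hp.integral_comp he g

theorem mu_E {ρ : Eu κ' → ℝ} (hm : Measurable ρ) :
    mu (fun x => ρ (E x)) univ = mu ρ univ := by
  have hp : MeasurePreserving E (volume : Measure (Eu κ)) (volume : Measure (Eu κ')) :=
    E.measurePreserving
  rw [mu, mu, withDensity_apply _ MeasurableSet.univ, withDensity_apply _ MeasurableSet.univ,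
    Measure.restrict_univ, Measure.restrict_univ]
  exact hp.lintegral_comp hm.ennreal_ofReal

theorem LC_E {ρ : Eu κ' → ℝ} (h : LC ρ) : LC fun x => ρ (E x) where
  nonneg x := h.nonneg _
  meas := h.meas.comp E.continuous.measurable
  logc x y t h0 h1 := by
    have := h.logc (E x) (E y) t h0 h1
    rw [map_add, map_smul, map_smul]
    exact this
  bdd := by
    obtain ⟨R, hR⟩ := h.bdd
    exact ⟨R, fun x hx => hR _ (by rwa [E.norm_map])⟩
  fin := by
    rw [mu_E E h.meas]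
    exact h.fin
  ne := by
    intro h0
    apply h.ne
    rw [← Measure.measure_univ_eq_zero] at h0 ⊢
    rwa [mu_E E h.meas] at h0

theorem CVd_E {ρ : Eu κ' → ℝ} {s : ℝ} (h : CVd ρ s) : CVd (fun x => ρ (E x)) s := by
  intro θ
  have h1 := h (E θ)
  have e0 := int_E E ρ
  have e1 := int_E E (fun y => ⟪E θ, y⟫_ℝ ^ 2 * ρ y)
  have e2 := int_E E (fun y => ⟪E θ, y⟫_ℝ * ρ y)
  simp only [E.inner_map_map] at e1 e2
  rw [← e0, ← e1, ← e2, E.norm_map] at h1
  exact h1

theorem PId_E {ρ : Eu κ' → ℝ} {c : ℝ} (h : PId (fun x => ρ (E x)) c) : PId ρ c := by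
  intro f hf
  have h1 := h (fun x => f (E x)) (hf.comp E.contDiff)
  have e0 := int_E E ρ
  have e1 := int_E E (fun y => f y ^ 2 * ρ y)
  have e2 := int_E E (fun y => f y * ρ y)
  have e3 := int_E E (fun y => ‖fderiv ℝ f y‖ ^ 2 * ρ y)
  have h2 : (fun x => ‖fderiv ℝ (fun x => f (E x)) x‖ ^ 2 * ρ (E x)) =
      fun x => ‖fderiv ℝ f (E x)‖ ^ 2 * ρ (E x) := by
    funext x
    have h3 : fderiv ℝ (fun x => f (E x)) x = (fderiv ℝ f (E x)).comp (E : Eu κ →L[ℝ] Eu κ') := by
      have h4 := ((hf.differentiable one_ne_zero (E x)).hasFDerivAt).comp x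
        ((E : Eu κ →L[ℝ] Eu κ').hasFDerivAt (x := x))
      exact h4.fderiv
    rw [h3]
    congr 2
    exact ContinuousLinearMap.opNorm_comp_linearIsometryEquiv _ _
  rw [h2, e0, e1, e2, e3] at h1
  exact h1

end

theorem dri : S_DRI := by
  intro κ κ' _ _ e ρ
  obtain ⟨E, hE⟩ : ∃ E : Eu κ ≃ₗᵢ[ℝ] Eu κ', E = Pool.Agent.Q275.EM.rx e := ⟨_, rfl⟩
  have h1 : (fun x : Eu κ => ρ (WithLp.toLp 2 fun j => x (e.symm j))) = fun x => ρ (E x) := by
    rw [hE]
    rfl
  rw [h1]
  exact ⟨fun h => LC_E E h, fun k hk s hs => PId_E E (hk s (CVd_E E hs))⟩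

end Pool.Agent.Q121.EM
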